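import Pool.Agent.W5h47.Nil.Final

/-!
# MP_442888_an: a smooth, measurably non-trivial time-change of a uniquely ergodic Heisenberg
nilflow which is not weakly mixing (and not mixing)

`Heis` is the real Heisenberg group (triples of reals with
`(a, b, c) * (a', b', c') = (a + a', b + b', c + c' + a * b')`), `Gam2` its lattice of integer
points, `NM = Heis ⧸ Gam2` the nilmanifold, `haar` its Haar probability measure,
`X θ t = exp(t(X + θY)) = (t, θt, θt²/2)` and `phi θ t p = X θ t • p` the nilflow.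
-/

open MeasureTheory Filter Topology Set
open Pool.Agent.R239.NilRet Pool.Agent.W5h47.Nil
open scoped Manifold ContDiff

namespace Pool.Agent.Results.MP_442888_an.NotWeaklyMixing

theorem result :
    -- `Heis` is a simply connected nilpotent Lie group, not abelian, `Gam2` a cocompact lattice
    (LieGroup 𝓘(ℝ, ℝ × ℝ × ℝ) ∞ Heis ∧ SimplyConnectedSpace Heis ∧ Group.IsNilpotent Heis ∧
      (∃ g h : Heis, g * h ≠ h * g) ∧ DiscreteTopology Gam2 ∧ CompactSpace (Heis ⧸ Gam2)) ∧
    -- `haar` is the invariant probability measure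
    (IsProbabilityMeasure haar ∧ ∀ g : Heis, haar.map (fun p : Heis ⧸ Gam2 => g • p) = haar) ∧
    ∃ θ : ℝ,
      -- `X θ` is a one-parameter subgroup which is not central
      (ContMDiff 𝓘(ℝ, ℝ) 𝓘(ℝ, ℝ × ℝ × ℝ) ∞ (X θ) ∧ (∀ s t, X θ (s + t) = X θ s * X θ t) ∧
        ∃ t, X θ t ∉ Subgroup.center Heis) ∧
      -- the nilflow is uniquely ergodic
      UniquelyErgodic (fun t (p : Heis ⧸ Gam2) => X θ t • p) haar ∧
      ∃ α : Heis ⧸ Gam2 → ℝ,
        -- `α` is smooth, positive and not measurably cohomologous to a constant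
        ContMDiff 𝓘(ℝ, ℝ × ℝ × ℝ) 𝓘(ℝ, ℝ) ∞ (fun g : Heis => α g) ∧ (∀ p, 0 < α p) ∧
        ¬ MeasurablyTrivial (fun t (p : Heis ⧸ Gam2) => X θ t • p) haar α ∧
        ∃ ψ : ℝ → Heis ⧸ Gam2 → Heis ⧸ Gam2,
          -- `ψ` is the (only) time-change by `α`, preserving the measure proportional to `α haar`
          IsTimeChange (fun t (p : Heis ⧸ Gam2) => X θ t • p) α ψ ∧
          (∀ ψ', IsTimeChange (fun t (p : Heis ⧸ Gam2) => X θ t • p) α ψ' → ψ' = ψ) ∧
          IsFlow ψ ∧ Continuous (fun q : ℝ × Heis ⧸ Gam2 => ψ q.1 q.2) ∧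
          IsProbabilityMeasure (changedMeasure haar α) ∧ Preserves ψ (changedMeasure haar α) ∧
          -- `ψ` has a measurable eigenfunction with eigenvalue `2π`
          (∃ F : Heis ⧸ Gam2 → ℂ, Measurable F ∧
            (∀ t p, F (ψ t p) = Complex.exp (2 * Real.pi * t * Complex.I) * F p) ∧
            ∀ᵐ p ∂(changedMeasure haar α), F p ≠ 0) ∧
          -- and `ψ` is neither weakly mixing nor mixing
          ¬ WeaklyMixing ψ (changedMeasure haar α) ∧ ¬ Mixing ψ (changedMeasure haar α) := by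
  obtain ⟨D⟩ := exists_data
  have hφ := phi_isFlow D.θ
  have hc := phi_continuous D.θ
  have hα := D.α_continuous
  have hc0 : (0 : ℝ) < 1 / 3 := by norm_num
  have hcα := D.α_ge
  have hψ := tcf_isFlow hφ hc hα hc0 hcα
  have hprob := changed_prob hα hc0 hcα haar
  have hpres := changed_preserved hφ hc hα hc0 hcα haar (phi_preserves D.θ)
  have hF : ∀ t p, D.F (tcf (phi D.θ) D.α t p) = ex t * D.F p := by
    intro t p
    have := D.F_phi (invc (phi D.θ) D.α p t) p
    rw [cocyc_invc hc hα hc0 hcα] at this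
    exact this
  have hac : changedMeasure haar D.α ≪ haar :=
    Measure.smul_absolutelyContinuous.trans (withDensity_absolutelyContinuous _ _)
  have hF0 : ∀ᵐ p ∂(changedMeasure haar D.α), D.F p ≠ 0 := hac.ae_le D.F_ne_zero
  refine ⟨⟨inferInstance, inferInstance, inferInstance, ⟨xc 1, yc 1, ?_⟩, inferInstance,
    inferInstance⟩, ⟨inferInstance, haar_map⟩, D.θ, ⟨?_, X_add D.θ, 1, ?_⟩,
    uniquelyErgodic D.irr, D.α, D.α_smooth, fun p => lt_of_lt_of_le hc0 (hcα p), D.not_trivial,
    tcf (phi D.θ) D.α, fun x t => tcf_isTimeChange hc hα hc0 hcα x t, ?_, hψ,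
    tcf_continuous hc hα hc0 hcα, hprob, hpres, ⟨D.F, D.F_measurable, hF, hF0⟩,
    not_weaklyMixing hψ hpres D.F_measurable hF hF0, not_mixing hψ hpres D.F_measurable hF hF0⟩
  · intro h
    have := congrArg Heis.z h
    simp [xc, yc] at this
  · have h : ContDiff ℝ ∞ (fun t : ℝ => ((t, D.θ * t, D.θ * t ^ 2 / 2) : ℝ × ℝ × ℝ)) := by
      fun_prop
    exact h.contMDiff
  · rw [Subgroup.mem_center_iff]
    intro h
    have := congrArg Heis.z (h (yc 1))
    simp [X, yc] at this
  · intro ψ' hψ'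
    funext s x
    have h1 := hψ' x (invc (phi D.θ) D.α x s)
    have h2 : ∫ r in (0 : ℝ)..(invc (phi D.θ) D.α x s), D.α (X D.θ r • x) = s :=
      cocyc_invc hc hα hc0 hcα x s
    rw [h2] at h1
    exact h1

end Pool.Agent.Results.MP_442888_an.NotWeaklyMixing
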